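import Mathlib

namespace Pool.Agent.Results.MP_ec348e_an.Vague
open Finset Filter Topology

section defs
variable {G : Type} [Group G]

/-- Convolution on a discrete group with counting measure. -/
noncomputable def conv (μ f : G → ℂ) (x : G) : ℂ := ∑' y, μ y * f (y⁻¹ * x)

open Classical in
/-- Convolution powers. -/
noncomputable def cpow (μ : G → ℂ) : ℕ → G → ℂ
  | 0 => Pi.single 1 1
  | k + 1 => conv μ (cpow μ k)

def VagueErgodic (μ : G → ℂ) : Prop :=
  ∃ ν : G → ℂ, Summable (fun x => ‖ν x‖) ∧ ∀ φ : G → ℂ, Tendsto φ cofinite (𝓝 0) →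
    Tendsto (fun n : ℕ => ∑' x, ((∑ k ∈ range n, cpow μ (k + 1) x) / n) * φ x) atTop
      (𝓝 (∑' x, ν x * φ x))

def MeanErgodic (p : ℝ) (μ : G → ℂ) : Prop :=
  ∀ f : G → ℂ, Summable (fun x => ‖f x‖ ^ p) → ∃ g : G → ℂ, Summable (fun x => ‖g x‖ ^ p) ∧
    Tendsto (fun n : ℕ => ∑' x, ‖(∑ k ∈ range n, (conv μ)^[k + 1] f x) / n - g x‖ ^ p) atTop (𝓝 0)
end defs

abbrev P := Equiv.Perm (Fin 3)
abbrev G := P × Multiplicative ℤ
def s : P := Equiv.swap 0 1
def r : P := Equiv.swap 0 1 * Equiv.swap 1 2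
def N (σ : P) : ℤ := (if σ = r then 1 else 0) - (if σ = r * s then 1 else 0) +
  (if σ = s * r then 1 else 0) - if σ = s * r * s then 1 else 0
def e (σ : P) (j : ℤ) : G := (σ, .ofAdd j)
def D (y x : G) : ℂ := if x = y then 1 else 0
noncomputable def E (k : ℕ) (x : G) : ℂ :=
  D (e 1 k) x + k * ∑ τ, N τ * (D (e τ k) x - D (e τ (k - 1)) x)

lemma pair (k : ℕ) (φ : G → ℂ) : HasSum (fun x => E k x * φ x)
    (φ (e 1 k) + k * (∑ τ, N τ * φ (e τ k) - ∑ τ, N τ * φ (e τ (k - 1)))) := by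
  have h : ∀ y, HasSum (fun x => D y x * φ x) (φ y) := fun y => by
    convert hasSum_ite_eq y (φ y) using 2 with x
    unfold D
    split_ifs with h <;> simp [h]
  convert (h (e 1 k)).add ((hasSum_sum (s := univ) fun τ _ =>
    ((h (e τ k)).sub (h (e τ (k - 1)))).mul_left (N τ : ℂ)).mul_left (k : ℂ)) using 1
  · funext x
    simp only [E, add_mul, mul_assoc, sum_mul, sub_mul]
  · simp only [mul_sub, sum_sub_distrib]

lemma E_apply (k : ℕ) (σ : P) (j : ℤ) : E k (e σ j) = (if σ = 1 then 1 else 0) * (if j = k then 1 else 0)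
    + k * N σ * ((if j = k then 1 else 0) - if j = k - 1 then 1 else 0) := by
  rw [E, sum_eq_single σ (fun τ _ h => by simp [D, e, h.symm]) (by simp)]
  by_cases h : σ = 1 <;> simp [D, e, h, mul_assoc, -ofAdd_sub]

lemma step (k : ℕ) : conv (E 1) (E k) = E (k + 1) := by
  funext ⟨σ, j⟩
  have h : ∀ τ i, (e τ i)⁻¹ * (σ, j) = e (τ⁻¹ * σ) (j.toAdd - i) := fun τ i => by
    simp [e, ofAdd_sub, div_eq_inv_mul]
  have h1 : ∑ τ, (N τ : ℂ) * N (τ⁻¹ * σ) = 0 := by
    have : ∀ σ, ∑ τ, N τ * N (τ⁻¹ * σ) = 0 := by decide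
    exact_mod_cast this σ
  have h2 : ∑ τ, (N τ : ℂ) * (if τ⁻¹ * σ = 1 then 1 else 0) = N σ := by simp [inv_mul_eq_one]
  have h3 : ∀ c d : ℂ, ∑ τ, (N τ : ℂ) * ((if τ⁻¹ * σ = 1 then 1 else 0) * c + k * N (τ⁻¹ * σ) * d)
      = N σ * c := fun c d => by
    simp only [mul_add, sum_add_distrib, ← mul_assoc, ← sum_mul, h2, mul_right_comm _ (k : ℂ), h1]
    simp
  rw [conv, (pair 1 _).tsum_eq, show E (k + 1) (σ, j) = E (k + 1) (e σ j.toAdd) from rfl]
  simp only [h, E_apply, h3, inv_one, one_mul, Nat.cast_one, sub_self, sub_zero, sub_eq_iff_eq_add,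
    Nat.cast_add, add_sub_cancel_right, sub_add_cancel]
  ring

lemma E0 : E 0 = Pi.single 1 1 := by
  funext x
  simp [E, D, e, Pi.single_apply, Prod.ext_iff]

lemma cpow_eq (k : ℕ) : cpow (E 1) k = E k := by
  induction k with
  | zero => funext x; simp [E0, cpow, Pi.single_apply]
  | succ k ih => rw [cpow, ih, step]

lemma iter_eq (k : ℕ) : (conv (E 1))^[k] (E 0) = E k := by
  induction k with
  | zero => rfl
  | succ k ih => rw [Function.iterate_succ_apply', ih, step]

lemma tele (ψ : ℤ → ℂ) (n : ℕ) : ∑ k ∈ range n, ((k + 1 : ℕ) : ℂ) * (ψ (k + 1 : ℕ) - ψ ((k + 1 : ℕ) - 1))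
    = n * ψ n - ∑ k ∈ range n, ψ k := by
  induction n with
  | zero => simp
  | succ n ih => rw [sum_range_succ, sum_range_succ, ih]; simp; ring

lemma summ (k : ℕ) {p : ℝ} (hp : 0 < p) : Summable fun x => ‖E k x‖ ^ p := by
  refine summable_of_ne_finset_zero (s := image (e · k) univ ∪ image (e · (k - 1)) univ) ?_
  rintro ⟨σ, j⟩ h
  have h1 : j.toAdd ≠ k := fun h1 => h (by simp [e, ← h1])
  have h2 : j.toAdd ≠ k - 1 := fun h1 => h (by simp [e, ← h1])
  rw [show E k (σ, j) = E k (e σ j.toAdd) from rfl, E_apply]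
  simp [h1, h2, hp.ne']

lemma inj (σ : P) : Tendsto (fun n : ℕ => e σ n) atTop cofinite := by
  rw [← Nat.cofinite_eq_atTop]
  exact Function.Injective.tendsto_cofinite fun m n h => by simpa [e] using h

theorem result : ∃ (G : Type) (_ : Group G) (μ : G → ℂ), Summable (fun x => ‖μ x‖) ∧
    VagueErgodic μ ∧ ∀ p : ℝ, 1 < p → ¬ MeanErgodic p μ := by
  refine ⟨G, inferInstance, E 1, by simpa using summ 1 one_pos, ⟨0, by simp [summable_zero],
    fun φ hφ => ?_⟩, fun p hp h => ?_⟩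
  · have h1 : Tendsto (fun n : ℕ => ∑ τ, N τ * φ (e τ n)) atTop (𝓝 0) := by
      simpa using tendsto_finsetSum univ fun τ _ => (hφ.comp (inj τ)).const_mul (N τ : ℂ)
    have h2 := ((hφ.comp (inj 1)).comp (tendsto_add_atTop_nat 1)).cesaro_smul
    have h3 := (h2.add h1).sub h1.cesaro_smul
    simp only [add_zero, sub_zero, Pi.zero_apply, zero_mul, tsum_zero] at h3 ⊢
    refine h3.congr' ((eventually_gt_atTop 0).mono fun n hn => ?_)
    have h4 := (hasSum_sum (s := range n) fun k _ => pair (k + 1) φ).div_const (n : ℂ)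
    rw [sum_add_distrib, tele fun j => ∑ τ, N τ * φ (e τ j)] at h4
    simp only [cpow_eq, div_mul_eq_mul_div, sum_mul]
    rw [h4.tsum_eq]
    have : (n : ℂ) ≠ 0 := by exact_mod_cast hn.ne'
    simp only [Function.comp_apply, Complex.real_smul, Complex.ofReal_inv, Complex.ofReal_natCast]
    field_simp
    ring
  · have hp0 : 0 < p := by linarith
    obtain ⟨g, hg, h⟩ := h (E 0) (summ 0 hp0)
    simp only [iter_eq] at h
    have hq : (ENNReal.ofReal p).toReal = p := ENNReal.toReal_ofReal hp0.le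
    have m : ∀ f : G → ℂ, Memℓp f (ENNReal.ofReal p) ↔ Summable fun x => ‖f x‖ ^ p := fun f => by
      rw [memℓp_gen_iff (hq.symm ▸ hp0), hq]
    have h1 : Tendsto (fun n : ℕ => g (e r n)) atTop (𝓝 0) := by
      have := (hg.tendsto_cofinite_zero.comp (inj r)).rpow_const (p := p⁻¹) (Or.inr (by positivity))
      rw [tendsto_zero_iff_norm_tendsto_zero]
      simpa [Real.rpow_rpow_inv, hp0.ne', Real.zero_rpow] using this
    have h2 := ((h1.const_sub 1).norm).rpow_const (p := p) (Or.inr hp0.le)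
    have h3 := le_of_tendsto_of_tendsto h2 h ((eventually_gt_atTop 0).mono fun n hn => ?_)
    · norm_num at h3
    have h4 : Summable fun x => ‖(∑ k ∈ range n, E (k + 1) x) / n - g x‖ ^ p := by
      refine (m _).1 ?_
      have := ((Memℓp.finsetSum (range n) fun k _ => (m _).2 (summ (k + 1) hp0)).const_smul
        (n : ℂ)⁻¹).sub ((m _).2 hg)
      convert this using 2 with x
      simp [div_eq_inv_mul]
    refine le_trans (le_of_eq ?_) (h4.le_tsum (e r n) fun _ _ => by positivity)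
    have h5 : ∑ k ∈ range n, E (k + 1) (e r n) = n := by
      have := tele (fun j => if (n : ℤ) = j then 1 else 0) n
      rw [sum_eq_zero (s := range n) (f := fun k : ℕ => if (n : ℤ) = k then (1 : ℂ) else 0)
        fun k hk => if_neg (by simp at hk; omega)] at this
      simp only [E_apply, show N r = 1 by decide, if_neg (show r ≠ 1 by decide)]
      simpa using this
    have : (n : ℂ) ≠ 0 := by exact_mod_cast hn.ne'
    simp only [h5, div_self this]

end Pool.Agent.Results.MP_ec348e_an.Vague
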